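import Pool.Agent.Y994.KW.Stm

/-!
# Project KW: the mean displacement is zero
-/

set_option autoImplicit false

namespace Y153.KW

open Y994.KW

/-- reflection of a corner -/
def rc (n : ℕ) (x : Pt) : Pt := (2 * n - x.1, x.2)

/-- reflection of a state -/
def rs (n : ℕ) (s : St) : St := (rc n s.2, rc n s.1)

/-- reflection of a configuration -/
def rg (n : ℕ) (σ : Cfg) : Cfg := fun j t => !σ (2 * n - 1 - j) t

lemma rs_rs (n : ℕ) (s : St) : rs n (rs n s) = s := by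
  obtain ⟨⟨a, b⟩, ⟨c, d⟩⟩ := s
  simp [rs, rc]

lemma rs_up (n : ℕ) (q t : ℤ) : rs n (up q t) = up (2 * n - 1 - q) t := by
  simp only [rs, rc, up, Prod.mk.injEq, and_true]
  constructor <;> ring

lemma rs_dn (n : ℕ) (q t : ℤ) : rs n (dn q t) = dn (2 * n - 1 - q) t := by
  simp only [rs, rc, dn, Prod.mk.injEq, and_true]
  constructor <;> ring

lemma tl_rs (n : ℕ) (s : St) (hs : Ok s) :
    (tl (rs n s)).1 = 2 * n - 1 - (tl s).1 ∧ (tl (rs n s)).2 = (tl s).2 := by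
  obtain ⟨q, t, rfl | rfl | rfl | rfl⟩ := hs <;>
    simp only [tl, rs, rc, rot, up, dn, Prod.fst_sub, Prod.snd_sub] <;>
    constructor <;> omega

lemma nxt_rs (n : ℕ) (σ : Cfg) (s : St) (hs : Ok s) : nxt (rg n σ) (rs n s) = rs n (nxt σ s) := by
  obtain ⟨h1, h2⟩ := tl_rs n s hs
  have h3 : rg n σ (tl (rs n s)).1 (tl (rs n s)).2 = !σ (tl s).1 (tl s).2 := by
    unfold rg
    rw [h1, h2]
    congr 2
    ring
  have h4 : decide ((rs n s).1.1 = (rs n s).2.1) = decide (s.1.1 = s.2.1) := by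
    apply decide_eq_decide.mpr
    show (2 * (n : ℤ) - s.2.1 = 2 * n - s.1.1) ↔ _
    omega
  obtain ⟨⟨a, b⟩, ⟨c, d⟩⟩ := s
  unfold nxt
  rw [h3, h4]
  by_cases h : σ (tl ((a, b), (c, d))).1 (tl ((a, b), (c, d))).2 = decide (a = c)
  · rw [if_pos h, if_neg]
    · simp only [rs, rc, rot, Prod.mk.injEq, Prod.mk_add_mk, Prod.mk_sub_mk]
      refine ⟨trivial, ?_, ?_⟩ <;> ring
    · show ¬ (!σ (tl ((a, b), (c, d))).1 (tl ((a, b), (c, d))).2) = decide (a = c)
      rw [h]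
      simp
  · rw [if_neg h, if_pos]
    · simp only [rs, rc, rot, Prod.mk.injEq, Prod.mk_add_mk, Prod.mk_sub_mk]
      refine ⟨⟨?_, ?_⟩, trivial⟩ <;> ring
    · show (!σ (tl ((a, b), (c, d))).1 (tl ((a, b), (c, d))).2) = decide (a = c)
      revert h
      cases σ (tl ((a, b), (c, d))).1 (tl ((a, b), (c, d))).2 <;> cases decide (a = c) <;> simp

lemma per_rg (n : ℕ) (σ : Cfg) (h : Per n σ) : Per n (rg n σ) := by
  intro j t
  unfold rg
  rw [← h (2 * n - 1 - (j + (2 * n + 1))) t]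
  congr 2
  ring

lemma per_mul (n : ℕ) (σ : Cfg) (h : Per n σ) (z : ℤ) (j t : ℤ) :
    σ (j + (2 * n + 1) * z) t = σ j t := by
  induction z using Int.induction_on with
  | zero => simp
  | succ i ih =>
    rw [← ih, ← h (j + (2 * n + 1) * i) t]
    congr 1
    ring
  | pred i ih =>
    rw [← ih, ← h (j + (2 * n + 1) * (-(i : ℤ) - 1)) t]
    congr 1
    ring

lemma nxt_sh (n : ℕ) (σ : Cfg) (h : Per n σ) (z : ℤ) (s : St) :
    nxt σ (sh ((2 * n + 1) * z) s) = sh ((2 * n + 1) * z) (nxt σ s) := by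
  obtain ⟨⟨a, b⟩, ⟨c, d⟩⟩ := s
  have hd : (sh ((2 * n + 1) * z) ((a, b), (c, d))).2 - (sh ((2 * n + 1) * z) ((a, b), (c, d))).1 =
      (c, d) - (a, b) := by
    simp only [sh, Prod.mk_sub_mk, Prod.mk.injEq, and_true]
    ring
  have h1 : (tl (sh ((2 * n + 1) * z) ((a, b), (c, d)))).1 =
      (tl ((a, b), (c, d))).1 + (2 * n + 1) * z := by
    simp only [tl, hd]
    simp only [sh, min_add_add_right]
    ring
  have h2 : (tl (sh ((2 * n + 1) * z) ((a, b), (c, d)))).2 = (tl ((a, b), (c, d))).2 := by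
    simp only [tl, hd]
    simp only [sh]
  have h3 : decide ((sh ((2 * n + 1) * z) ((a, b), (c, d))).1.1 =
      (sh ((2 * n + 1) * z) ((a, b), (c, d))).2.1) = decide (a = c) := by
    apply decide_eq_decide.mpr
    simp [sh]
  unfold nxt
  rw [h1, h2, h3, per_mul n σ h, hd]
  show _ = sh ((2 * n + 1) * z) (if σ (tl ((a, b), (c, d))).1 (tl ((a, b), (c, d))).2 =
    decide (a = c) then _ else _)
  split_ifs
  · simp only [sh, rot, Prod.mk_sub_mk, Prod.mk_add_mk, Prod.mk.injEq, and_true]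
    ring
  · simp only [sh, rot, Prod.mk_sub_mk, Prod.mk_add_mk, Prod.mk.injEq, and_true, true_and]
    ring

lemma wk_sh (n : ℕ) (a : ℤ) (σ : Cfg) (h : Per n σ) (z : ℤ) (s : St) :
    wk n a σ (sh ((2 * n + 1) * z) s) = sh ((2 * n + 1) * z) (wk n a σ s) := by
  obtain ⟨⟨x, b⟩, ⟨c, d⟩⟩ := s
  unfold wk
  by_cases hc : b = a ∧ d = a ∧ x = c + 1
  · rw [if_pos (show ((x, b), (c, d)).1.2 = a ∧ ((x, b), (c, d)).2.2 = a ∧
        ((x, b), (c, d)).1.1 = ((x, b), (c, d)).2.1 + 1 from hc), if_pos]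
    · have h1 : ((sh ((2 * n + 1) * z) ((x, b), (c, d))).2.1 % (2 * n + 1)) = c % (2 * n + 1) := by
        show (c + (2 * n + 1) * z) % (2 * n + 1) = _
        rw [Int.add_mul_emod_self_left]
      rw [h1]
      show _ = sh ((2 * n + 1) * z) (if (c % (2 * n + 1)) % 2 = 0 then _ else _)
      split_ifs
      · simp only [sh, Prod.mk.injEq, and_true, true_and]
        ring
      · simp only [sh, Prod.mk.injEq, and_true]
        ring
    · show b = a ∧ d = a ∧ x + (2 * n + 1) * z = c + (2 * n + 1) * z + 1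
      refine ⟨hc.1, hc.2.1, ?_⟩
      rw [hc.2.2]
      ring
  · rw [if_neg (show ¬ (((x, b), (c, d)).1.2 = a ∧ ((x, b), (c, d)).2.2 = a ∧
        ((x, b), (c, d)).1.1 = ((x, b), (c, d)).2.1 + 1) from hc), if_neg, nxt_sh n σ h]
    rintro ⟨h1, h2, h3⟩
    apply hc
    refine ⟨h1, h2, ?_⟩
    have h4 : x + (2 * n + 1) * z = c + (2 * n + 1) * z + 1 := h3
    linarith

lemma wk_rs (n : ℕ) (a : ℤ) (σ : Cfg) (s : St) (hs : Ok s)
    (hne : ∀ z : ℤ, s ≠ sh ((2 * n + 1) * z) (rev (up (2 * n) a))) :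
    wk n a (rg n σ) (rs n s) = rs n (wk n a σ s) := by
  by_cases hc : s.1.2 = a ∧ s.2.2 = a ∧ s.1.1 = s.2.1 + 1
  · obtain ⟨⟨x, b⟩, ⟨c, d⟩⟩ := s
    obtain ⟨h1, h2, h3⟩ := hc
    simp only at h1 h2 h3
    subst h1 h2 h3
    have hres : c % (2 * n + 1) ≠ 2 * n := by
      intro h
      apply hne (c / (2 * n + 1))
      have h5 := Int.emod_add_mul_ediv c (2 * n + 1)
      rw [h] at h5
      simp only [sh, rev, up, Prod.mk.injEq, and_true]
      constructor <;> linarith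
    have hpos : (0 : ℤ) < 2 * n + 1 := by positivity
    have h5 := Int.emod_nonneg c hpos.ne'
    have h6 := Int.emod_lt_of_pos c hpos
    have hr : (2 * (n : ℤ) - 1 - c) % (2 * n + 1) = 2 * n - 1 - c % (2 * n + 1) := by
      have h7 : (2 * (n : ℤ) - 1 - c) = (2 * n - 1 - c % (2 * n + 1)) +
          (2 * n + 1) * (-(c / (2 * n + 1))) := by
        have := Int.emod_add_mul_ediv c (2 * n + 1)
        linarith
      rw [h7, Int.add_mul_emod_self_left, Int.emod_eq_of_lt] <;> omega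
    unfold wk
    have h8 : (rs n ((c + 1, d), (c, d))).2.1 = 2 * n - 1 - c := by
      show (2 * (n : ℤ) - (c + 1)) = _
      ring
    have hA : (rs n ((c + 1, d), (c, d))).1.2 = d ∧ (rs n ((c + 1, d), (c, d))).2.2 = d ∧
        (rs n ((c + 1, d), (c, d))).1.1 = (rs n ((c + 1, d), (c, d))).2.1 + 1 := by
      refine ⟨rfl, rfl, ?_⟩
      rw [h8]
      show (2 * (n : ℤ) - c) = _
      ring
    have hB : ((c + 1, d), (c, d)).1.2 = d ∧ ((c + 1, d), (c, d)).2.2 = d ∧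
        ((c + 1, d), (c, d)).1.1 = ((c + 1, d), (c, d)).2.1 + 1 := ⟨rfl, rfl, rfl⟩
    rw [if_pos hA, if_pos hB, h8, hr]
    show (if (2 * (n : ℤ) - 1 - c % (2 * n + 1)) % 2 = 0 then _ else _) =
      rs n (if (c % (2 * n + 1)) % 2 = 0 then _ else _)
    by_cases h9 : (c % (2 * n + 1)) % 2 = 0
    · rw [if_pos h9, if_neg (by omega)]
      simp only [rs, rc, Prod.mk.injEq, and_true]
      ring
    · rw [if_neg h9, if_pos (by omega)]
      simp only [rs, rc, Prod.mk.injEq, and_true, true_and]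
      ring
  · unfold wk
    rw [if_neg hc, if_neg, nxt_rs n σ s hs]
    rintro ⟨h1, h2, h3⟩
    apply hc
    refine ⟨h2, h1, ?_⟩
    have h4 : 2 * (n : ℤ) - s.2.1 = 2 * n - s.1.1 + 1 := h3
    linarith

lemma orb_succ (n : ℕ) (a : ℤ) (σ : Cfg) (i : ℕ) : orb n a σ (i + 1) = wk n a σ (orb n a σ i) :=
  Function.iterate_succ_apply' _ _ _

lemma orb_rg (hV : S_VAL) (hI : S_INJ) (n : ℕ) (hn : 1 ≤ n) (a : ℤ) (σ : Cfg) (h : Per n σ)
    (i : ℕ) : orb n a (rg n σ) i = sh ((2 * n + 1) * 1) (rs n (orb n a σ i)) := by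
  induction i with
  | zero =>
    show up (2 * n) a = sh _ (rs n (up (2 * n) a))
    rw [rs_up]
    simp only [sh, up, Prod.mk.injEq, and_true]
    constructor <;> ring
  | succ i ih =>
    rw [orb_succ, ih, wk_sh n a _ (per_rg n σ h), orb_succ, wk_rs n a σ _ (hV n a σ i hn h).1]
    intro z
    exact (hI n a σ hn h 0 i z).2

lemma sh_up (z q t : ℤ) : sh z (up q t) = up (q + z) t := by
  simp only [sh, up, Prod.mk.injEq, and_true, true_and]
  ring

lemma hit_rg (hV : S_VAL) (hI : S_INJ) (n : ℕ) (hn : 1 ≤ n) (a b : ℤ) (σ : Cfg) (h : Per n σ)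
    (i : ℕ) (X : ℤ) (hX : Hit n a b σ i X) : Hit n a b (rg n σ) i (-X) := by
  refine ⟨?_, ?_⟩
  · rw [orb_rg hV hI n hn a σ h, hX.1, rs_up, sh_up]
    congr 1
    ring
  · intro k hk q hq
    rw [orb_rg hV hI n hn a σ h] at hq
    have h1 : rs n (orb n a σ k) = up (q - (2 * n + 1)) b := by
      have h2 : sh (-((2 * n + 1) * 1)) (sh ((2 * n + 1) * 1) (rs n (orb n a σ k))) =
          rs n (orb n a σ k) := by
        simp only [sh]
        ext <;> simp <;> ring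
      rw [← h2, hq, sh_up]
      congr 1
      ring
    have h3 : orb n a σ k = up (2 * n - 1 - (q - (2 * n + 1))) b := by
      rw [← rs_up, ← h1, rs_rs]
    exact hX.2 k hk _ h3

lemma hit_unique (n : ℕ) (a b : ℤ) (σ : Cfg) (i i' : ℕ) (X X' : ℤ) (h : Hit n a b σ i X)
    (h' : Hit n a b σ i' X') : X = X' := by
  have hi : i = i' := by
    rcases lt_trichotomy i i' with h1 | h1 | h1
    · exact absurd h.1 (h'.2 i h1 _)
    · exact h1
    · exact absurd h'.1 (h.2 i' h1 _)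
  subst hi
  have h1 := h.1.symm.trans h'.1
  simp only [up, Prod.mk.injEq] at h1
  omega

lemma dsp_rg (hH : S_HIT) (hV : S_VAL) (hI : S_INJ) (n : ℕ) (hn : 1 ≤ n) (a b : ℤ) (hab : a ≤ b)
    (σ : Cfg) (h : Per n σ) : dsp n a b (rg n σ) = -dsp n a b σ := by
  obtain ⟨i, hi⟩ := hH n a b σ hn h hab
  obtain ⟨i', hi'⟩ := hH n a b (rg n σ) hn (per_rg n σ h) hab
  exact hit_unique n a b _ _ _ _ _ hi' (hit_rg hV hI n hn a b σ h i _ hi)

lemma jx_eq (m : ℕ) (j j' : ℤ) (h : j % ((m : ℤ) + 1) = j' % ((m : ℤ) + 1)) :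
    H906K.jx m j = H906K.jx m j' := by
  unfold H906K.jx
  apply Fin.ext
  simp only
  rw [h]

lemma jx_val (m : ℕ) (j : ℤ) : ((H906K.jx m j : ℕ) : ℤ) = j % ((m : ℤ) + 1) := by
  unfold H906K.jx
  simp only
  rw [Int.toNat_of_nonneg (Int.emod_nonneg j (by omega))]

lemma jx_fin (m : ℕ) (j : Fin (m + 1)) : H906K.jx m ((j : ℕ) : ℤ) = j := by
  apply Fin.ext
  have h1 := jx_val m ((j : ℕ) : ℤ)
  rw [Int.emod_eq_of_lt (by omega) (by have := j.2; omega)] at h1
  exact_mod_cast h1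

lemma per_cfg (n M : ℕ) (c : Fin M → Fin (2 * n + 1) → Bool) : Per n (cfg n M c) := by
  intro j t
  unfold cfg
  have h : H906K.jx (2 * n) (j + (2 * n + 1)) = H906K.jx (2 * n) j := by
    apply jx_eq
    push_cast
    rw [Int.add_emod_right]
  rw [h]

/-- reflection of a configuration on the cylinder -/
def rf (n M : ℕ) (c : Fin M → Fin (2 * n + 1) → Bool) : Fin M → Fin (2 * n + 1) → Bool :=
  fun t j => !c t (H906K.jx (2 * n) (2 * n - 1 - ((j : ℕ) : ℤ)))

lemma jx_sub (n : ℕ) (j : ℤ) : H906K.jx (2 * n) (2 * n - 1 - ((H906K.jx (2 * n) j : ℕ) : ℤ)) =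
    H906K.jx (2 * n) (2 * n - 1 - j) := by
  apply jx_eq
  rw [jx_val, Int.sub_emod, Int.emod_emod_of_dvd _ (dvd_refl _), ← Int.sub_emod]

lemma rf_rf (n M : ℕ) (c : Fin M → Fin (2 * n + 1) → Bool) : rf n M (rf n M c) = c := by
  funext t j
  unfold rf
  rw [Bool.not_not, jx_sub]
  congr 1
  have : (2 * (n : ℤ) - 1 - (2 * n - 1 - ((j : ℕ) : ℤ))) = ((j : ℕ) : ℤ) := by ring
  rw [this, jx_fin]

lemma X_rf (hH : S_HIT) (hV : S_VAL) (hI : S_INJ) (hL : S_LOC) (n M : ℕ) (hn : 1 ≤ n)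
    (c : Fin M → Fin (2 * n + 1) → Bool) : X n M (rf n M c) = -X n M c := by
  unfold X
  rw [← dsp_rg hH hV hI n hn 0 M (by positivity) _ (per_cfg n M c)]
  have h := hL n 0 M 0 (rg n (cfg n M c)) (cfg n M (rf n M c)) hn (by positivity) (by
    intro j t ht0 htM
    rw [add_zero]
    simp only [cfg, rg, rf, dif_pos (show 0 ≤ t ∧ t < (M : ℤ) from ⟨ht0, htM⟩), jx_sub])
  rwa [add_zero, add_zero] at h

theorem t_SYM : S_HIT → S_VAL → S_INJ → S_LOC → S_SYM := by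
  intro hH hV hI hL n M hn
  unfold H906K.Ex
  have h1 : ∑ c : Fin M → Fin (2 * n + 1) → Bool, (X n M c : ℝ) =
      ∑ c : Fin M → Fin (2 * n + 1) → Bool, (X n M (rf n M c) : ℝ) := by
    refine (Fintype.sum_equiv (Function.Involutive.toPerm (rf n M) (rf_rf n M)) _ _ ?_).symm
    intro c
    rfl
  have h2 : ∑ c : Fin M → Fin (2 * n + 1) → Bool, (X n M (rf n M c) : ℝ) =
      -∑ c : Fin M → Fin (2 * n + 1) → Bool, (X n M c : ℝ) := by
    rw [← Finset.sum_neg_distrib]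
    refine Finset.sum_congr rfl fun c _ => ?_
    rw [X_rf hH hV hI hL n M hn]
    push_cast
    ring
  have h3 : ∑ c : Fin M → Fin (2 * n + 1) → Bool, (X n M c : ℝ) = 0 := by linarith
  rw [h3, zero_div]

end Y153.KW
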